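import Pool.Agent.H14.GKK2

set_option autoImplicit false

namespace Pool.Agent.Results.MP_0e199b_al.OrderFive

open Matrix Finset ComplexOrder

/-- the least real eigenvalue (`⊤` if there is none) -/
noncomputable def ell {k : ℕ} (B : Matrix (Fin k) (Fin k) ℂ) : EReal :=
  sInf ((fun x : ℝ => (x : EReal)) '' {x : ℝ | (x : ℂ) ∈ spectrum ℂ B})

def TauMatrix {n : ℕ} (A : Matrix (Fin n) (Fin n) ℂ) : Prop :=
  (∀ (k m : ℕ) (f : Fin k → Fin n) (g : Fin m → Fin n), StrictMono f → StrictMono g → 0 < m →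
    Set.range g ⊆ Set.range f →
    ell (A.submatrix f f) ≤ ell (A.submatrix g g) ∧ ell (A.submatrix g g) < ⊤) ∧ 0 ≤ ell A

theorem result : ∃ A : Matrix (Fin 5) (Fin 5) ℂ, TauMatrix A ∧ ∃ l : ℝ, ell A = l ∧
    ∃ z ∈ spectrum ℂ A, z ≠ l ∧ Real.pi / 2 - Real.pi / 5 < |Complex.arg (z - l)| := by
  obtain ⟨l, hl, e⟩ := Pool.Agent.H14.GKK.ell_A
  obtain ⟨z, hz, h⟩ := Pool.Agent.H14.GKK.unstable
  have h0 : z ≠ l := by
    rintro rfl
    rw [Complex.ofReal_re] at h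
    linarith
  refine ⟨Pool.Agent.H14.GKK.A, Pool.Agent.H14.GKK.tau, l, e, z, hz, h0, ?_⟩
  have h1 : ¬ |Complex.arg (z - l)| < Real.pi / 2 := by
    rw [Complex.abs_arg_lt_pi_div_two_iff]
    rintro (h2 | h2)
    · rw [Complex.sub_re, Complex.ofReal_re] at h2
      linarith
    · exact h0 (sub_eq_zero.1 h2)
  linarith [Real.pi_pos, not_lt.1 h1]

end Pool.Agent.Results.MP_0e199b_al.OrderFive
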